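import Pool.Agent.R3B.StmtsL

/-!
# Squad R3B, row SHA: the difference quotients are uniformly Cauchy
-/

set_option autoImplicit false

namespace Pool.Agent.R3B.H36

open Set Filter Topology MeasureTheory
open Pool.Agent.R3B
open Pool.Agent.Helper39_Wave (phi abs_phi continuous_phi)
open Pool.Agent.Helper72_Shell (fold fold_continuous fold_nonneg fold_le)

theorem bl_nonneg {α ℓ : ℝ} (hℓ : 0 < ℓ) (x : ℝ) : 0 ≤ bl α ℓ x :=
  Real.rpow_nonneg (fold_nonneg hℓ x) _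

theorem bl_mul {α ℓ L x V : ℝ} (hα : 0 < α) (hℓ : 0 < ℓ) (hL : 0 ≤ L)
    (hV : |V| ≤ 2 * L * fold ℓ x) : bl α ℓ x * |V| ^ α ≤ (2 * L) ^ α := by
  have hf := fold_nonneg hℓ x
  unfold bl
  rcases hf.eq_or_lt with h | h
  · rw [← h, Real.zero_rpow (neg_ne_zero.mpr hα.ne'), zero_mul]
    positivity
  · have h1 : |V| ^ α ≤ (2 * L * fold ℓ x) ^ α := Real.rpow_le_rpow (abs_nonneg _) hV hα.le
    have h2 : 0 ≤ fold ℓ x ^ (-α) := Real.rpow_nonneg hf _
    calc fold ℓ x ^ (-α) * |V| ^ α ≤ fold ℓ x ^ (-α) * (2 * L * fold ℓ x) ^ α :=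
          mul_le_mul_of_nonneg_left h1 h2
      _ = (2 * L) ^ α := by
          rw [Real.mul_rpow (by positivity) hf, Real.rpow_neg hf]
          have h3 : fold ℓ x ^ α ≠ 0 := (Real.rpow_pos_of_pos h _).ne'
          field_simp

theorem bl_meas (α ℓ y : ℝ) : Measurable fun s => bl α ℓ (y - s) := by
  unfold bl
  exact (((fold_continuous ℓ).comp (continuous_const.sub continuous_id)).measurable).pow_const _

theorem ii_of_bdd {g : ℝ → ℝ} {a b C : ℝ} (hab : a ≤ b) (hm : Measurable g)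
    (hb : ∀ s ∈ Icc a b, |g s| ≤ C) : IntervalIntegrable g volume a b := by
  rw [intervalIntegrable_iff_integrableOn_Icc_of_le hab]
  refine Measure.integrableOn_of_bounded (M := C) (by simp) hm.aestronglyMeasurable ?_
  filter_upwards [ae_restrict_mem measurableSet_Icc] with s hs
  rw [Real.norm_eq_abs]
  exact hb s hs

theorem cos_taylor (x u : ℝ) (hu : 0 ≤ u) : |Real.cos (x + u) - Real.cos x + u * Real.sin x| ≤ u * u := by
  have h1 : ∀ v ∈ Icc (0 : ℝ) u, HasDerivWithinAt (fun v => Real.cos (x + v) + v * Real.sin x)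
      (-Real.sin (x + v) + Real.sin x) (Icc 0 u) v := by
    intro v _
    have h2 : HasDerivAt (fun v => Real.cos (x + v) + v * Real.sin x)
        (-Real.sin (x + v) * (0 + 1) + 1 * Real.sin x) v := by
      have h3 : HasDerivAt (fun v : ℝ => x + v) (0 + 1) v :=
        (hasDerivAt_const v x).add (hasDerivAt_id v)
      exact (h3.cos).add ((hasDerivAt_id v).mul_const _)
    have h4 : -Real.sin (x + v) * (0 + 1) + 1 * Real.sin x = -Real.sin (x + v) + Real.sin x := by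
      ring
    rw [h4] at h2
    exact h2.hasDerivWithinAt
  have h5 : ∀ v ∈ Ico (0 : ℝ) u, ‖-Real.sin (x + v) + Real.sin x‖ ≤ u := by
    intro v hv
    have h6 : |Real.sin x - Real.sin (x + v)| ≤ |x - (x + v)| := by
      have h7 := Real.lipschitzWith_sin.dist_le_mul x (x + v)
      rw [Real.dist_eq, Real.dist_eq] at h7
      simpa using h7
    rw [Real.norm_eq_abs]
    have h8 : -Real.sin (x + v) + Real.sin x = Real.sin x - Real.sin (x + v) := by ring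
    rw [h8]
    refine h6.trans ?_
    have h9 : x - (x + v) = -v := by ring
    rw [h9, abs_neg, abs_of_nonneg hv.1]
    exact hv.2.le
  have h10 := norm_image_sub_le_of_norm_deriv_le_segment' h1 h5 u (right_mem_Icc.mpr hu)
  rw [Real.norm_eq_abs] at h10
  have h11 : Real.cos (x + u) - Real.cos x + u * Real.sin x =
      Real.cos (x + u) + u * Real.sin x - (Real.cos (x + 0) + 0 * Real.sin x) := by
    rw [add_zero]; ring
  rw [h11]
  refine h10.trans (le_of_eq ?_)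
  ring

section
variable {a α ℓ : ℝ} {P : ℝ → ℝ → ℝ}

theorem DD_bd (hP : BS a α ℓ P) {t : ℝ} (ht : 0 ≤ t) (y : ℝ) :
    |DD P t y| ≤ 2 * (Real.pi / ℓ) * fold ℓ (y - t) := hP.vb t y ht

theorem DD_sh (hP : BS a α ℓ P) {s h : ℝ} (hs : 0 ≤ s) (hh : 0 ≤ h) (y : ℝ) :
    |DD P (s + h) (y + h)| ≤ 2 * (Real.pi / ℓ) * fold ℓ (y - s) := by
  have h1 := DD_bd hP (add_nonneg hs hh) (y + h)
  have h2 : y + h - (s + h) = y - s := by ring
  rwa [h2] at h1

theorem DD_cont (hP : BS a α ℓ P) (h y : ℝ) : Continuous fun s => DD P (s + h) (y + h) := by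
  unfold DD
  have h1 : Continuous fun s : ℝ => P (s + h) (y + h) :=
    hP.cont.comp (f := fun s : ℝ => ((s + h, y + h) : ℝ × ℝ)) (by fun_prop)
  have h2 : Continuous fun s : ℝ => P (s + h) (2 * (s + h) - (y + h)) :=
    hP.cont.comp (f := fun s : ℝ => ((s + h, 2 * (s + h) - (y + h)) : ℝ × ℝ)) (by fun_prop)
  exact h1.sub h2

theorem qq_cont (hP : BS a α ℓ P) (h y : ℝ) :
    Continuous fun s => qq P h s y - qq P h s (2 * s - y) := by
  unfold qq
  have h1 : Continuous fun s : ℝ => P (s + h) (y + h) :=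
    hP.cont.comp (f := fun s : ℝ => ((s + h, y + h) : ℝ × ℝ)) (by fun_prop)
  have h2 : Continuous fun s : ℝ => P s y :=
    hP.cont.comp (f := fun s : ℝ => ((s, y) : ℝ × ℝ)) (by fun_prop)
  have h3 : Continuous fun s : ℝ => P (s + h) (2 * s - y + h) :=
    hP.cont.comp (f := fun s : ℝ => ((s + h, 2 * s - y + h) : ℝ × ℝ)) (by fun_prop)
  have h4 : Continuous fun s : ℝ => P s (2 * s - y) :=
    hP.cont.comp (f := fun s : ℝ => ((s, 2 * s - y) : ℝ × ℝ)) (by fun_prop)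
  exact ((h1.sub h2).div_const _).sub ((h3.sub h4).div_const _)

theorem qq_bd (hP : BS a α ℓ P) {h t : ℝ} (hh : 0 < h) (ht : 0 ≤ t) (y : ℝ) :
    |qq P h t y| ≤ Real.pi / ℓ := by
  unfold qq
  rw [abs_div, abs_of_pos hh, div_le_iff₀ hh]
  exact hP.lip t h y ht hh.le

/-- The integral of the nonlinear term. -/
noncomputable def NN (α ℓ : ℝ) (P : ℝ → ℝ → ℝ) (h y s : ℝ) : ℝ :=
  bl α ℓ (y - s) * phi α (DD P (s + h) (y + h))

theorem NN_meas (hα : 0 < α) (hP : BS a α ℓ P) (h y : ℝ) : Measurable (NN α ℓ P h y) :=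
  (bl_meas α ℓ y).mul ((continuous_phi hα).comp (DD_cont hP h y)).measurable

theorem NN_bd (hα : 0 < α) (hℓ : 0 < ℓ) (hP : BS a α ℓ P) {h s : ℝ} (hs : 0 ≤ s) (hh : 0 ≤ h)
    (y : ℝ) : |NN α ℓ P h y s| ≤ (2 * (Real.pi / ℓ)) ^ α * (2 * (Real.pi / ℓ) * ℓ) := by
  have hL : (0 : ℝ) ≤ Real.pi / ℓ := by positivity
  have h1 := DD_sh hP hs hh y
  have h2 := bl_mul hα hℓ hL h1
  unfold NN
  rw [abs_mul, abs_phi, abs_of_nonneg (bl_nonneg hℓ _), ← mul_assoc]
  have h3 : |DD P (s + h) (y + h)| ≤ 2 * (Real.pi / ℓ) * ℓ :=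
    h1.trans (mul_le_mul_of_nonneg_left (fold_le hℓ _) (by positivity))
  exact mul_le_mul h2 h3 (abs_nonneg _) (by positivity)

theorem NN_ii (hα : 0 < α) (hℓ : 0 < ℓ) (hP : BS a α ℓ P) {h t : ℝ} (ht : 0 ≤ t) (hh : 0 ≤ h)
    (y : ℝ) : IntervalIntegrable (NN α ℓ P h y) volume 0 t :=
  ii_of_bdd ht (NN_meas hα hP h y) fun s hs => NN_bd hα hℓ hP hs.1 hh y

theorem repr_sh (hP : BS a α ℓ P) {h t : ℝ} (ht : 0 ≤ t) (hh : 0 ≤ h) (y : ℝ) :
    P (t + h) (y + h) - P h (y + h) = -(a / 2) * ∫ s in (0 : ℝ)..t, NN α ℓ P h y s := by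
  have h1 := hP.ode h (t + h) (y + h) hh (by linarith)
  rw [h1]
  congr 1
  have h2 := intervalIntegral.integral_comp_add_right (a := 0) (b := t)
    (fun s => bl α ℓ (y + h - s) * phi α (P s (y + h) - P s (2 * s - (y + h)))) h
  rw [zero_add] at h2
  rw [← h2]
  refine intervalIntegral.integral_congr fun s _ => ?_
  have h3 : y + h - (s + h) = y - s := by ring
  simp only [NN, DD, h3]

theorem repr_qq (hP : BS a α ℓ P) {h t : ℝ} (ht : 0 ≤ t) (hh : 0 < h) (y : ℝ) :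
    qq P h t y = qq P h 0 y - (a / 2) * (((∫ s in (0 : ℝ)..t, NN α ℓ P h y s) -
      ∫ s in (0 : ℝ)..t, NN α ℓ P 0 y s) / h) := by
  have h1 := repr_sh hP ht hh.le y
  have h2 := repr_sh hP ht le_rfl y
  rw [add_zero, add_zero] at h2
  unfold qq
  rw [zero_add]
  field_simp
  linarith

/-- The linear term. -/
noncomputable def BL (α ℓ : ℝ) (P : ℝ → ℝ → ℝ) (h y s : ℝ) : ℝ :=
  bl α ℓ (y - s) * ((α + 1) * |DD P s y| ^ α * (qq P h s y - qq P h s (2 * s - y)))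

/-- The difference quotient of the nonlinear term. -/
noncomputable def DQ (α ℓ : ℝ) (P : ℝ → ℝ → ℝ) (h y s : ℝ) : ℝ :=
  (NN α ℓ P h y s - NN α ℓ P 0 y s) / h

/-- The integrand of SHE. -/
noncomputable def EE (a α ℓ : ℝ) (P : ℝ → ℝ → ℝ) (h y s : ℝ) : ℝ :=
  (a / 2) * bl α ℓ (y - s) *
    |(phi α (DD P (s + h) (y + h)) - phi α (DD P s y)) / h -
      (α + 1) * |DD P s y| ^ α * (qq P h s y - qq P h s (2 * s - y))|

theorem DD_cont0 (hP : BS a α ℓ P) (y : ℝ) : Continuous fun s => DD P s y := by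
  have h1 := DD_cont hP 0 y
  simpa using h1

theorem BL_meas (hP : BS a α ℓ P) (h y : ℝ) : Measurable (BL α ℓ P h y) :=
  (bl_meas α ℓ y).mul ((((DD_cont0 hP y).abs.measurable.pow_const _).const_mul _).mul
    (qq_cont hP h y).measurable)

theorem BL_bd (hα : 0 < α) (hℓ : 0 < ℓ) (hP : BS a α ℓ P) {h s : ℝ} (hs : 0 ≤ s) (hh : 0 < h)
    (y : ℝ) : |BL α ℓ P h y s| ≤ (α + 1) * (2 * (Real.pi / ℓ)) ^ α * (2 * (Real.pi / ℓ)) := by
  have hL : (0 : ℝ) ≤ Real.pi / ℓ := by positivity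
  have h2 := bl_mul hα hℓ hL (DD_bd hP hs y)
  have h3 : |qq P h s y - qq P h s (2 * s - y)| ≤ 2 * (Real.pi / ℓ) := by
    have h4 := qq_bd hP hh hs y
    have h5 := qq_bd hP hh hs (2 * s - y)
    have h6 := abs_sub (qq P h s y) (qq P h s (2 * s - y))
    linarith
  have h0 : 0 ≤ |DD P s y| ^ α := Real.rpow_nonneg (abs_nonneg _) _
  have h7 : |BL α ℓ P h y s| = (α + 1) * (bl α ℓ (y - s) * |DD P s y| ^ α) *
      |qq P h s y - qq P h s (2 * s - y)| := by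
    unfold BL
    rw [abs_mul, abs_mul, abs_mul, abs_of_nonneg (bl_nonneg hℓ _), abs_of_nonneg h0,
      abs_of_nonneg (by linarith : (0 : ℝ) ≤ α + 1)]
    ring
  rw [h7]
  have h8 : (α + 1) * (bl α ℓ (y - s) * |DD P s y| ^ α) ≤ (α + 1) * (2 * (Real.pi / ℓ)) ^ α :=
    mul_le_mul_of_nonneg_left h2 (by linarith)
  exact mul_le_mul h8 h3 (abs_nonneg _) (by positivity)

theorem EE_eq (hℓ : 0 < ℓ) (h y s : ℝ) :
    EE a α ℓ P h y s = (a / 2) * |DQ α ℓ P h y s - BL α ℓ P h y s| := by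
  have h1 : DQ α ℓ P h y s - BL α ℓ P h y s = bl α ℓ (y - s) *
      ((phi α (DD P (s + h) (y + h)) - phi α (DD P s y)) / h -
      (α + 1) * |DD P s y| ^ α * (qq P h s y - qq P h s (2 * s - y))) := by
    unfold DQ BL NN
    rw [add_zero, add_zero]
    ring
  rw [h1, abs_mul, abs_of_nonneg (bl_nonneg hℓ _)]
  unfold EE
  ring

theorem DQ_meas (hα : 0 < α) (hP : BS a α ℓ P) (h y : ℝ) : Measurable (DQ α ℓ P h y) :=
  ((NN_meas hα hP h y).sub (NN_meas hα hP 0 y)).div_const _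

theorem DQ_bd (hα : 0 < α) (hℓ : 0 < ℓ) (hP : BS a α ℓ P) {h s : ℝ} (hs : 0 ≤ s) (hh : 0 < h)
    (y : ℝ) : |DQ α ℓ P h y s| ≤
      2 * ((2 * (Real.pi / ℓ)) ^ α * (2 * (Real.pi / ℓ) * ℓ)) / h := by
  unfold DQ
  rw [abs_div, abs_of_pos hh]
  refine div_le_div_of_nonneg_right ?_ hh.le
  have h1 := NN_bd hα hℓ hP hs hh.le y
  have h2 := NN_bd hα hℓ hP hs le_rfl y
  have h3 := abs_sub (NN α ℓ P h y s) (NN α ℓ P 0 y s)
  linarith

theorem EE_ii (ha : 0 < a) (hα : 0 < α) (hℓ : 0 < ℓ) (hP : BS a α ℓ P) {h t : ℝ} (ht : 0 ≤ t)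
    (hh : 0 < h) (y : ℝ) : IntervalIntegrable (EE a α ℓ P h y) volume 0 t := by
  have h0 : EE a α ℓ P h y = fun s => (a / 2) * |DQ α ℓ P h y s - BL α ℓ P h y s| := by
    funext s
    exact EE_eq hℓ h y s
  rw [h0]
  refine ii_of_bdd (C := (a / 2) * (2 * ((2 * (Real.pi / ℓ)) ^ α * (2 * (Real.pi / ℓ) * ℓ)) / h +
    (α + 1) * (2 * (Real.pi / ℓ)) ^ α * (2 * (Real.pi / ℓ)))) ht ?_ ?_
  · exact (((DQ_meas hα hP h y).sub (BL_meas hP h y)).abs).const_mul _
  · intro s hs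
    rw [abs_mul, abs_of_pos (by linarith : 0 < a / 2), abs_abs]
    refine mul_le_mul_of_nonneg_left ?_ (by linarith)
    have h1 := DQ_bd hα hℓ hP hs.1 hh y
    have h2 := BL_bd hα hℓ hP hs.1 hh y
    have h3 := abs_sub (DQ α ℓ P h y s) (BL α ℓ P h y s)
    linarith

theorem EE_nn (ha : 0 < a) (hℓ : 0 < ℓ) (h y s : ℝ) : 0 ≤ EE a α ℓ P h y s := by
  rw [EE_eq hℓ]
  positivity

theorem repr2 (hα : 0 < α) (hℓ : 0 < ℓ) (hP : BS a α ℓ P) {h t : ℝ} (ht : 0 ≤ t) (hh : 0 < h)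
    (y : ℝ) : qq P h t y = qq P h 0 y - ∫ s in (0 : ℝ)..t, (a / 2) * DQ α ℓ P h y s := by
  rw [repr_qq hP ht hh y, intervalIntegral.integral_const_mul]
  unfold DQ
  rw [intervalIntegral.integral_div,
    intervalIntegral.integral_sub (NN_ii hα hℓ hP ht hh.le y) (NN_ii hα hℓ hP ht le_rfl y)]

theorem int_exp {K M t : ℝ} : ∫ s in (0 : ℝ)..t, 2 * K * M * Real.exp (4 * K * s) =
    M / 2 * (Real.exp (4 * K * t) - 1) := by
  have h1 : ∀ s ∈ uIcc (0 : ℝ) t, HasDerivAt (fun s => M / 2 * Real.exp (4 * K * s))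
      (2 * K * M * Real.exp (4 * K * s)) s := by
    intro s _
    have h2 : HasDerivAt (fun s : ℝ => 4 * K * s) (4 * K) s := by
      simpa using (hasDerivAt_id s).const_mul (4 * K)
    have h3 := (h2.exp).const_mul (M / 2)
    have h4 : M / 2 * (Real.exp (4 * K * s) * (4 * K)) = 2 * K * M * Real.exp (4 * K * s) := by
      ring
    rwa [h4] at h3
  rw [intervalIntegral.integral_eq_sub_of_hasDerivAt h1
    ((by fun_prop : Continuous fun s : ℝ => 2 * K * M * Real.exp (4 * K * s)).intervalIntegrable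
      _ _)]
  simp only [mul_zero, Real.exp_zero]
  ring

theorem step (ha : 0 < a) (hα : 0 < α) (hℓ : 0 < ℓ) (hP : BS a α ℓ P) {T ε1 h h' A M : ℝ}
    (hh : 0 < h) (hh' : 0 < h') (hM : 0 ≤ M)
    (he : ∀ y, ∫ s in (0 : ℝ)..T, EE a α ℓ P h y s ≤ ε1)
    (he' : ∀ y, ∫ s in (0 : ℝ)..T, EE a α ℓ P h' y s ≤ ε1)
    (hz0 : ∀ y, |qq P h 0 y - qq P h' 0 y| + 2 * ε1 ≤ A) (hA : 0 ≤ A)
    (hind : ∀ s y, 0 ≤ s → s ≤ T → |qq P h s y - qq P h' s y| ≤
      M * Real.exp (4 * ((a / 2) * (α + 1) * (2 * (Real.pi / ℓ)) ^ α) * s)) :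
    ∀ t y, 0 ≤ t → t ≤ T → |qq P h t y - qq P h' t y| ≤
      (A + M / 2) * Real.exp (4 * ((a / 2) * (α + 1) * (2 * (Real.pi / ℓ)) ^ α) * t) := by
  intro t y ht htT
  have hL : (0 : ℝ) ≤ Real.pi / ℓ := by positivity
  obtain ⟨K, hK⟩ : ∃ K, K = (a / 2) * (α + 1) * (2 * (Real.pi / ℓ)) ^ α := ⟨_, rfl⟩
  rw [← hK] at hind ⊢
  have hK0 : 0 ≤ K := by rw [hK]; positivity
  have hDi : ∀ {h : ℝ}, 0 < h → IntervalIntegrable (fun s => (a / 2) * DQ α ℓ P h y s)
      volume 0 t := by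
    intro h hh
    refine ii_of_bdd (C := (a / 2) *
      (2 * ((2 * (Real.pi / ℓ)) ^ α * (2 * (Real.pi / ℓ) * ℓ)) / h)) ht
      ((DQ_meas hα hP h y).const_mul _) ?_
    intro s hs
    rw [abs_mul, abs_of_pos (by linarith : 0 < a / 2)]
    exact mul_le_mul_of_nonneg_left (DQ_bd hα hℓ hP hs.1 hh y) (by linarith)
  have h1 : qq P h t y - qq P h' t y = (qq P h 0 y - qq P h' 0 y) -
      ∫ s in (0 : ℝ)..t, ((a / 2) * DQ α ℓ P h y s - (a / 2) * DQ α ℓ P h' y s) := by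
    rw [intervalIntegral.integral_sub (hDi hh) (hDi hh'), repr2 hα hℓ hP ht hh y,
      repr2 hα hℓ hP ht hh' y]
    ring
  have hgi : IntervalIntegrable (fun s => EE a α ℓ P h y s + EE a α ℓ P h' y s +
      2 * K * M * Real.exp (4 * K * s)) volume 0 t :=
    ((EE_ii ha hα hℓ hP ht hh y).add (EE_ii ha hα hℓ hP ht hh' y)).add
      ((by fun_prop : Continuous fun s : ℝ => 2 * K * M * Real.exp (4 * K * s)).intervalIntegrable
        _ _)
  have h2 : ‖∫ s in (0 : ℝ)..t, ((a / 2) * DQ α ℓ P h y s - (a / 2) * DQ α ℓ P h' y s)‖ ≤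
      ∫ s in (0 : ℝ)..t, (EE a α ℓ P h y s + EE a α ℓ P h' y s +
        2 * K * M * Real.exp (4 * K * s)) := by
    refine intervalIntegral.norm_integral_le_of_norm_le ht (Filter.Eventually.of_forall ?_) hgi
    intro s hs
    have hs0 : 0 ≤ s := hs.1.le
    have hsT : s ≤ T := hs.2.trans htT
    rw [Real.norm_eq_abs, EE_eq hℓ, EE_eq hℓ]
    have h3 : (a / 2) * DQ α ℓ P h y s - (a / 2) * DQ α ℓ P h' y s =
        (a / 2) * (DQ α ℓ P h y s - BL α ℓ P h y s) -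
        (a / 2) * (DQ α ℓ P h' y s - BL α ℓ P h' y s) +
        (a / 2) * (BL α ℓ P h y s - BL α ℓ P h' y s) := by ring
    have h4 : |(a / 2) * (BL α ℓ P h y s - BL α ℓ P h' y s)| ≤
        2 * K * M * Real.exp (4 * K * s) := by
      have h5 : (a / 2) * (BL α ℓ P h y s - BL α ℓ P h' y s) =
          (a / 2) * (α + 1) * (bl α ℓ (y - s) * |DD P s y| ^ α) *
          ((qq P h s y - qq P h' s y) - (qq P h s (2 * s - y) - qq P h' s (2 * s - y))) := by
        unfold BL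
        ring
      have h6 := bl_mul hα hℓ hL (DD_bd hP hs0 y)
      have h7 : 0 ≤ bl α ℓ (y - s) * |DD P s y| ^ α :=
        mul_nonneg (bl_nonneg hℓ _) (Real.rpow_nonneg (abs_nonneg _) _)
      have h8 : |(qq P h s y - qq P h' s y) - (qq P h s (2 * s - y) - qq P h' s (2 * s - y))| ≤
          2 * (M * Real.exp (4 * K * s)) := by
        have h9 := abs_sub (qq P h s y - qq P h' s y)
          (qq P h s (2 * s - y) - qq P h' s (2 * s - y))
        have h10 := hind s y hs0 hsT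
        have h11 := hind s (2 * s - y) hs0 hsT
        linarith
      rw [h5, abs_mul, abs_of_nonneg (mul_nonneg (by positivity) h7)]
      have h12 : (a / 2) * (α + 1) * (bl α ℓ (y - s) * |DD P s y| ^ α) ≤ K := by
        rw [hK]
        exact mul_le_mul_of_nonneg_left h6 (by positivity)
      calc (a / 2) * (α + 1) * (bl α ℓ (y - s) * |DD P s y| ^ α) *
            |(qq P h s y - qq P h' s y) - (qq P h s (2 * s - y) - qq P h' s (2 * s - y))|
          ≤ K * (2 * (M * Real.exp (4 * K * s))) :=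
            mul_le_mul h12 h8 (abs_nonneg _) hK0
        _ = 2 * K * M * Real.exp (4 * K * s) := by ring
    have h13 : ∀ x : ℝ, |(a / 2) * x| = (a / 2) * |x| := by
      intro x
      rw [abs_mul, abs_of_pos (by linarith : 0 < a / 2)]
    rw [h3]
    have h14 := abs_add_le ((a / 2) * (DQ α ℓ P h y s - BL α ℓ P h y s) -
        (a / 2) * (DQ α ℓ P h' y s - BL α ℓ P h' y s))
        ((a / 2) * (BL α ℓ P h y s - BL α ℓ P h' y s))
    have h15 := abs_sub ((a / 2) * (DQ α ℓ P h y s - BL α ℓ P h y s))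
        ((a / 2) * (DQ α ℓ P h' y s - BL α ℓ P h' y s))
    rw [h13, h13] at h15
    linarith
  have hmono : ∀ {h : ℝ}, 0 < h → (∀ y, ∫ s in (0 : ℝ)..T, EE a α ℓ P h y s ≤ ε1) →
      ∫ s in (0 : ℝ)..t, EE a α ℓ P h y s ≤ ε1 := by
    intro h hh he
    refine (intervalIntegral.integral_mono_interval le_rfl ht htT ?_
      (EE_ii ha hα hℓ hP (ht.trans htT) hh y)).trans (he y)
    exact Filter.Eventually.of_forall fun s => EE_nn ha hℓ h y s
  have h16 : ∫ s in (0 : ℝ)..t, (EE a α ℓ P h y s + EE a α ℓ P h' y s +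
        2 * K * M * Real.exp (4 * K * s)) ≤ ε1 + ε1 + M / 2 * (Real.exp (4 * K * t) - 1) := by
    rw [intervalIntegral.integral_add ((EE_ii ha hα hℓ hP ht hh y).add
      (EE_ii ha hα hℓ hP ht hh' y)) ((by fun_prop : Continuous fun s : ℝ =>
        2 * K * M * Real.exp (4 * K * s)).intervalIntegrable _ _),
      intervalIntegral.integral_add (EE_ii ha hα hℓ hP ht hh y) (EE_ii ha hα hℓ hP ht hh' y),
      int_exp]
    have h17 := hmono hh he
    have h18 := hmono hh' he'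
    linarith
  rw [Real.norm_eq_abs] at h2
  have h19 := abs_sub (qq P h 0 y - qq P h' 0 y)
    (∫ s in (0 : ℝ)..t, ((a / 2) * DQ α ℓ P h y s - (a / 2) * DQ α ℓ P h' y s))
  rw [← h1] at h19
  have h20 := hz0 y
  have h21 : 1 ≤ Real.exp (4 * K * t) := Real.one_le_exp (by positivity)
  have h22 : A ≤ A * Real.exp (4 * K * t) := le_mul_of_one_le_right hA h21
  have h23 : (A + M / 2) * Real.exp (4 * K * t) = A * Real.exp (4 * K * t) +
      M / 2 * (Real.exp (4 * K * t) - 1) + M / 2 := by ring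
  rw [h23]
  linarith

theorem iter (ha : 0 < a) (hα : 0 < α) (hℓ : 0 < ℓ) (hP : BS a α ℓ P) {T ε1 h h' A : ℝ}
    (hh : 0 < h) (hh' : 0 < h')
    (he : ∀ y, ∫ s in (0 : ℝ)..T, EE a α ℓ P h y s ≤ ε1)
    (he' : ∀ y, ∫ s in (0 : ℝ)..T, EE a α ℓ P h' y s ≤ ε1)
    (hz0 : ∀ y, |qq P h 0 y - qq P h' 0 y| + 2 * ε1 ≤ A) (hA : 0 ≤ A) :
    ∀ t y, 0 ≤ t → t ≤ T → |qq P h t y - qq P h' t y| ≤
      2 * A * Real.exp (4 * ((a / 2) * (α + 1) * (2 * (Real.pi / ℓ)) ^ α) * t) := by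
  have hL : (0 : ℝ) ≤ Real.pi / ℓ := by positivity
  have hn : ∀ n : ℕ, ∀ t y, 0 ≤ t → t ≤ T → |qq P h t y - qq P h' t y| ≤
      (2 * A + 2 * (Real.pi / ℓ) / 2 ^ n) *
        Real.exp (4 * ((a / 2) * (α + 1) * (2 * (Real.pi / ℓ)) ^ α) * t) := by
    intro n
    induction n with
    | zero =>
      intro t y ht _
      have h1 := qq_bd hP hh ht y
      have h2 := qq_bd hP hh' ht y
      have h3 := abs_sub (qq P h t y) (qq P h' t y)
      have h4 : 1 ≤ Real.exp (4 * ((a / 2) * (α + 1) * (2 * (Real.pi / ℓ)) ^ α) * t) :=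
        Real.one_le_exp (by positivity)
      have h5 : 0 ≤ 2 * A + 2 * (Real.pi / ℓ) / 2 ^ 0 := by positivity
      have h6 : 2 * A + 2 * (Real.pi / ℓ) / 2 ^ 0 ≤ (2 * A + 2 * (Real.pi / ℓ) / 2 ^ 0) *
          Real.exp (4 * ((a / 2) * (α + 1) * (2 * (Real.pi / ℓ)) ^ α) * t) :=
        le_mul_of_one_le_right h5 h4
      refine le_trans ?_ h6
      rw [pow_zero, div_one]
      linarith
    | succ n ih =>
      have h1 := step ha hα hℓ hP hh hh' (M := 2 * A + 2 * (Real.pi / ℓ) / 2 ^ n)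
        (by positivity) he he' hz0 hA ih
      intro t y ht htT
      have h2 := h1 t y ht htT
      have h3 : A + (2 * A + 2 * (Real.pi / ℓ) / 2 ^ n) / 2 =
          2 * A + 2 * (Real.pi / ℓ) / 2 ^ (n + 1) := by
        rw [pow_succ]
        field_simp
        ring
      rwa [h3] at h2
  intro t y ht htT
  have h1 : Tendsto (fun n : ℕ => (2 * A + 2 * (Real.pi / ℓ) / 2 ^ n) *
      Real.exp (4 * ((a / 2) * (α + 1) * (2 * (Real.pi / ℓ)) ^ α) * t)) atTop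
      (𝓝 ((2 * A + 0) * Real.exp (4 * ((a / 2) * (α + 1) * (2 * (Real.pi / ℓ)) ^ α) * t))) := by
    refine (tendsto_const_nhds.add ?_).mul tendsto_const_nhds
    exact tendsto_const_nhds.div_atTop (tendsto_pow_atTop_atTop_of_one_lt one_lt_two)
  rw [add_zero] at h1
  exact ge_of_tendsto' h1 fun n => hn n t y ht htT

theorem DD_s (hP : BS a α ℓ P) {s : ℝ} (hs : 0 ≤ s) (y : ℝ) :
    |DD P s y| ≤ 2 * (Real.pi / ℓ) * s := by
  have h1 := hP.lip 0 s (y - s) le_rfl hs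
  have h2 := hP.lip 0 s (s - y) le_rfl hs
  rw [zero_add, sub_add_cancel, hP.ini] at h1
  have h3 : s - y + s = 2 * s - y := by ring
  rw [zero_add, h3, hP.ini] at h2
  have h4 : Real.cos (Real.pi / ℓ * (s - y)) = Real.cos (Real.pi / ℓ * (y - s)) := by
    rw [← Real.cos_neg (Real.pi / ℓ * (y - s))]
    congr 1
    ring
  rw [h4] at h2
  have h5 := abs_sub (P s y - Real.cos (Real.pi / ℓ * (y - s)))
    (P s (2 * s - y) - Real.cos (Real.pi / ℓ * (y - s)))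
  have h6 : P s y - Real.cos (Real.pi / ℓ * (y - s)) -
    (P s (2 * s - y) - Real.cos (Real.pi / ℓ * (y - s))) = DD P s y := by
    unfold DD
    ring
  rw [h6] at h5
  linarith

theorem init (ha : 0 < a) (hα : 0 < α) (hℓ : 0 < ℓ) (hP : BS a α ℓ P) {h : ℝ} (hh : 0 < h)
    (y : ℝ) : |qq P h 0 y + Real.pi / ℓ * Real.sin (Real.pi / ℓ * y)| ≤
      (Real.pi / ℓ * (Real.pi / ℓ) +
        (a / 2) * ((2 * (Real.pi / ℓ)) ^ α * (2 * (Real.pi / ℓ)))) * h := by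
  have hL : (0 : ℝ) ≤ Real.pi / ℓ := by positivity
  have h1 := hP.ode 0 h (y + h) le_rfl hh.le
  have h2 : ‖∫ s in (0 : ℝ)..h, bl α ℓ (y + h - s) *
      phi α (P s (y + h) - P s (2 * s - (y + h)))‖ ≤
      ((2 * (Real.pi / ℓ)) ^ α * (2 * (Real.pi / ℓ) * h)) * |h - 0| := by
    refine intervalIntegral.norm_integral_le_of_norm_le_const fun s hs => ?_
    rw [uIoc_of_le hh.le] at hs
    have hs0 : 0 ≤ s := hs.1.le
    rw [Real.norm_eq_abs, abs_mul, abs_phi, abs_of_nonneg (bl_nonneg hℓ _), ← mul_assoc]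
    have h3 : |P s (y + h) - P s (2 * s - (y + h))| ≤ 2 * (Real.pi / ℓ) * s := DD_s hP hs0 (y + h)
    have h4 : 2 * (Real.pi / ℓ) * s ≤ 2 * (Real.pi / ℓ) * h :=
      mul_le_mul_of_nonneg_left hs.2 (by positivity)
    exact mul_le_mul (bl_mul hα hℓ hL (DD_bd hP hs0 (y + h))) (h3.trans h4) (abs_nonneg _)
      (by positivity)
  have h5 : |P h (y + h) - P 0 (y + h)| ≤
      (a / 2) * (((2 * (Real.pi / ℓ)) ^ α * (2 * (Real.pi / ℓ) * h)) * h) := by
    rw [h1, abs_mul, abs_neg, abs_of_pos (by linarith : 0 < a / 2)]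
    rw [sub_zero, abs_of_pos hh] at h2
    exact mul_le_mul_of_nonneg_left h2 (by linarith)
  have h6 := cos_taylor (Real.pi / ℓ * y) (Real.pi / ℓ * h) (by positivity)
  have h7 : Real.pi / ℓ * y + Real.pi / ℓ * h = Real.pi / ℓ * (y + h) := by ring
  rw [h7, ← hP.ini, ← hP.ini] at h6
  have h8 : qq P h 0 y + Real.pi / ℓ * Real.sin (Real.pi / ℓ * y) =
      ((P h (y + h) - P 0 (y + h)) + (P 0 (y + h) - P 0 y +
        Real.pi / ℓ * h * Real.sin (Real.pi / ℓ * y))) / h := by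
    unfold qq
    rw [zero_add]
    field_simp
    ring
  rw [h8, abs_div, abs_of_pos hh, div_le_iff₀ hh]
  refine (abs_add_le _ _).trans ?_
  have h9 : (Real.pi / ℓ * (Real.pi / ℓ) +
        (a / 2) * ((2 * (Real.pi / ℓ)) ^ α * (2 * (Real.pi / ℓ)))) * h * h =
      (a / 2) * (((2 * (Real.pi / ℓ)) ^ α * (2 * (Real.pi / ℓ) * h)) * h) +
      Real.pi / ℓ * h * (Real.pi / ℓ * h) := by ring
  rw [h9]
  exact add_le_add h5 h6

end

theorem sha (h1 : SheStmt) : ShaStmt := by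
  intro a α ℓ P ha hα hℓ hP T ε hT hε
  have hL : (0 : ℝ) < Real.pi / ℓ := by positivity
  obtain ⟨K, hK⟩ : ∃ K, K = (a / 2) * (α + 1) * (2 * (Real.pi / ℓ)) ^ α := ⟨_, rfl⟩
  have hK0 : 0 ≤ K := by rw [hK]; positivity
  obtain ⟨C, hC⟩ : ∃ C, C = Real.pi / ℓ * (Real.pi / ℓ) +
        (a / 2) * ((2 * (Real.pi / ℓ)) ^ α * (2 * (Real.pi / ℓ))) := ⟨_, rfl⟩
  have hC0 : 0 < C := by rw [hC]; positivity
  have hexp : 0 < Real.exp (4 * K * T) := Real.exp_pos _
  obtain ⟨ε1, hε1⟩ : ∃ ε1, ε1 = ε / (6 * Real.exp (4 * K * T)) := ⟨_, rfl⟩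
  have hε1p : 0 < ε1 := by rw [hε1]; positivity
  obtain ⟨δ1, hδ1, hS⟩ := h1 a α ℓ P ha hα hℓ hP T ε1 hT hε1p
  refine ⟨min δ1 (ε1 / (2 * C)), lt_min hδ1 (by positivity), ?_⟩
  intro h h' t y hh hhδ hh' hhδ' ht htT
  have he : ∀ y, ∫ s in (0 : ℝ)..T, EE a α ℓ P h y s ≤ ε1 :=
    fun y => hS h y hh (hhδ.trans (min_le_left _ _))
  have he' : ∀ y, ∫ s in (0 : ℝ)..T, EE a α ℓ P h' y s ≤ ε1 :=
    fun y => hS h' y hh' (hhδ'.trans (min_le_left _ _))
  have hz0 : ∀ y, |qq P h 0 y - qq P h' 0 y| + 2 * ε1 ≤ 3 * ε1 := by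
    intro y
    have h2 := init ha hα hℓ hP hh y
    have h3 := init ha hα hℓ hP hh' y
    rw [← hC] at h2 h3
    have h4 := abs_sub (qq P h 0 y + Real.pi / ℓ * Real.sin (Real.pi / ℓ * y))
      (qq P h' 0 y + Real.pi / ℓ * Real.sin (Real.pi / ℓ * y))
    rw [add_sub_add_right_eq_sub] at h4
    have h5 : C * h ≤ ε1 / 2 := by
      have h6 : h ≤ ε1 / (2 * C) := hhδ.trans (min_le_right _ _)
      calc C * h ≤ C * (ε1 / (2 * C)) := mul_le_mul_of_nonneg_left h6 hC0.le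
        _ = ε1 / 2 := by field_simp
    have h7 : C * h' ≤ ε1 / 2 := by
      have h6 : h' ≤ ε1 / (2 * C) := hhδ'.trans (min_le_right _ _)
      calc C * h' ≤ C * (ε1 / (2 * C)) := mul_le_mul_of_nonneg_left h6 hC0.le
        _ = ε1 / 2 := by field_simp
    linarith
  have h8 := iter ha hα hℓ hP hh hh' he he' hz0 (by positivity) t y ht htT
  rw [← hK] at h8
  have h9 : Real.exp (4 * K * t) ≤ Real.exp (4 * K * T) :=
    Real.exp_le_exp.mpr (mul_le_mul_of_nonneg_left htT (by positivity))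
  calc |qq P h t y - qq P h' t y| ≤ 2 * (3 * ε1) * Real.exp (4 * K * t) := h8
    _ ≤ 2 * (3 * ε1) * Real.exp (4 * K * T) := mul_le_mul_of_nonneg_left h9 (by positivity)
    _ = ε := by rw [hε1]; field_simp; ring

end Pool.Agent.R3B.H36
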